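import Mathlib
import Pool.Agent.Q155.FibSeq

/-!
`a(15,21) = 8` but `b(15,21) = 7`.
-/

set_option autoImplicit false

namespace Pool.Agent.Results.MP_5ec752_co.TypeBShorter

open Q155.FibSeq

theorem regA8 : RegA [21, 15, 6, 4, 2, 1, 1, 1] := by
  have h3 : RegA [1, 1, 1] := RegA.right [1] [1] RegA.base (by simp)
  have h4 : RegA [2, 1, 1, 1] := RegA.left [1, 1] [1] h3 (by simp)
  have h5 : RegA [4, 2, 1, 1, 1] := RegA.left [2, 1, 1] [1] h4 (by simp)
  have h6 : RegA [6, 4, 2, 1, 1, 1] := RegA.left [4, 2] [1, 1, 1] h5 (by simp)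
  have h7 : RegA [15, 6, 4, 2, 1, 1, 1] := RegA.left [6, 4, 2, 1, 1, 1] [] h6 (by simp)
  exact RegA.left [15, 6] [4, 2, 1, 1, 1] h7 (by simp)

theorem regB7 : RegB [21, 15, 4, 2, 1, 1, 7] := by
  have h3 : RegB [2, 1, 1] := RegB.left [] [1, 1] [] RegB.base (by simp)
  have h4 : RegB [4, 2, 1, 1] := RegB.left [] [2, 1, 1] [] h3 (by simp)
  have h5 : RegB [4, 2, 1, 1, 7] := RegB.right [] [4, 2, 1] [1] h4 (by simp)
  have h6 : RegB [15, 4, 2, 1, 1, 7] := RegB.left [] [4, 2, 1, 1, 7] [] h5 (by simp)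
  exact RegB.left [] [15, 4, 2] [1, 1, 7] h6 (by simp)

/-- **Disproof of Q1**: `a(15,21) = 8`, whereas `b(15,21) = 7`. -/
theorem result : IsLeast {n | Has RegA [15, 21] n} 8 ∧ IsLeast {n | Has RegB [15, 21] n} 7 := by
  refine ⟨⟨⟨_, regA8, rfl, [21, 15], List.Perm.swap _ _ _, by decide⟩, ?_⟩,
    ⟨⟨_, regB7, rfl, [21, 15], List.Perm.swap _ _ _, by decide⟩, ?_⟩⟩
  · intro n hn
    exact lowerA (m := 5) (by norm_num) (by decide +kernel) hn
  · intro n hn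
    exact lowerB (m := 4) (by norm_num) (by decide +kernel) hn

end Pool.Agent.Results.MP_5ec752_co.TypeBShorter
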